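import Mathlib
import Pool.Agent.K1H24.PkSpace

set_option autoImplicit false

namespace Pool.Agent.Results.MP_eb7e96_an.InfinitePocket

open Set UniformSpace Filter Topology
open scoped ENNReal

/-- the closed annulus `A(a, r, R) = {z : r ≤ d(a, z) ≤ R}` -/
def annulus {X : Type} [MetricSpace X] (a : X) (r R : ℝ) : Set X :=
  {z | r ≤ dist a z ∧ dist a z ≤ R}

/-- `X` is `lam`-ALLC: any two points of `A(a, r, R)` lie in a continuum contained in
`A(a, r / lam, lam * R)`. -/
def IsALLC (X : Type) [MetricSpace X] (lam : ℝ) : Prop :=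
  ∀ (a : X) (r R : ℝ), 0 < r → r < R → ∀ p ∈ annulus a r R, ∀ q ∈ annulus a r R,
    ∃ K : Set X, IsCompact K ∧ IsConnected K ∧ p ∈ K ∧ q ∈ K ∧
      K ⊆ annulus a (r / lam) (lam * R)

/-- `X` is homeomorphic to a domain (nonempty connected open subset) of the sphere `S²`. -/
def IsSphereDomain (X : Type) [MetricSpace X] : Prop :=
  ∃ U : Set (Metric.sphere (0 : EuclideanSpace ℝ (Fin 3)) 1),
    IsOpen U ∧ IsConnected U ∧ Nonempty (X ≃ₜ U)

/-- the metric boundary: the completion minus the space -/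
def bdry (X : Type) [MetricSpace X] : Set (Completion X) :=
  (range ((↑) : X → Completion X))ᶜ

/-- a component of the metric boundary with more than one point -/
def IsNontrivialBdryComponent {X : Type} [MetricSpace X] (E : Set (Completion X)) : Prop :=
  (∃ x ∈ bdry X, E = connectedComponentIn (bdry X) x) ∧ E.Nontrivial

/-- the relative distance `dist(E, F) / min (diam E) (diam F)`, as an extended nonnegative real -/
noncomputable def relDist {Y : Type} [MetricSpace Y] (E F : Set Y) : ℝ≥0∞ :=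
  (⨅ x ∈ E, ⨅ y ∈ F, edist x y) / min (Metric.ediam E) (Metric.ediam F)

open Pool.Agent.K1H24.Pk

theorem sphereDomain (k : ℕ) : IsSphereDomain (Xk k) := by
  obtain ⟨e⟩ := exists_hom (k := k)
  have : Fact (Module.finrank ℝ (EuclideanSpace ℝ (Fin 3)) = 2 + 1) := ⟨by simp⟩
  obtain ⟨v⟩ : Nonempty (Metric.sphere (0 : EuclideanSpace ℝ (Fin 3)) 1) :=
    (NormedSpace.sphere_nonempty.2 zero_le_one).to_subtype
  set σ := (stereographic' 2 v).symm with hσ
  have hemb : IsOpenEmbedding (fun x : EuclideanSpace ℝ (Fin 2) => σ x) :=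
    σ.isOpenEmbedding (by simp [hσ])
  have hemb2 : IsOpenEmbedding (fun x : Xk k => σ (e x)) := hemb.comp e.isOpenEmbedding
  have hne : Nonempty (Xk k) := e.surjective.nonempty
  have hconn : ConnectedSpace (Xk k) := e.symm.surjective.connectedSpace e.symm.continuous
  exact ⟨range fun x : Xk k => σ (e x), hemb2.isOpen_range, isConnected_range hemb2.continuous,
    ⟨hemb2.toIsEmbedding.toHomeomorph⟩⟩

theorem allc (k : ℕ) : IsALLC (Xk k) 252 := by
  intro a r R hr hrR p hp q hq
  have ed : ∀ x : Xk k, dist a x = dL ((k : ℝ) + 1) (toP x.1) (toP a.1) := fun x => by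
    rw [dist_comm]; rfl
  obtain ⟨hp1, hp2⟩ := hp
  obtain ⟨hq1, hq2⟩ := hq
  rw [ed] at hp1 hp2 hq1 hq2
  obtain ⟨K, k1, k2, k3, k4, k5⟩ := allc_coord ((k : ℝ) + 1) (a := toP a.1) (p := toP p.1)
    (q := toP q.1) a.2 p.2 q.2 hr hrR hp1 hp2 hq1 hq2
  have himg : (Subtype.val '' {x : Xk k | toP x.1 ∈ K} : Set (Pl k)) = ofP '' K := by
    ext y
    constructor
    · rintro ⟨x, hx, rfl⟩
      exact ⟨toP x.1, hx, rfl⟩
    · rintro ⟨x, hx, rfl⟩
      exact ⟨⟨ofP x, (k5 hx).1⟩, hx, rfl⟩
  refine ⟨{x : Xk k | toP x.1 ∈ K}, ?_, ⟨⟨p, k3⟩, ?_⟩, k3, k4, ?_⟩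
  · rw [IsEmbedding.subtypeVal.isCompact_iff, himg]
    exact k1.image continuous_ofP
  · rw [← IsInducing.subtypeVal.isPreconnected_image, himg]
    exact k2.image _ continuous_ofP.continuousOn
  · intro x hx
    have := k5 hx
    refine ⟨?_, ?_⟩
    · rw [ed]; exact this.2.1
    · rw [ed]; exact this.2.2

section completion

variable {k : ℕ}

/-- the embedding of the completion into the plane -/
noncomputable def Phi : Completion (Xk k) → Pl k := Completion.extension Subtype.val

lemma isometry_Phi : Isometry (Phi : Completion (Xk k) → Pl k) :=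
  isometry_subtype_coe.completion_extension

lemma Phi_coe (x : Xk k) : Phi (x : Completion (Xk k)) = x.1 :=
  Completion.extension_coe isometry_subtype_coe.uniformContinuous x

lemma range_Phi : range (Phi : Completion (Xk k) → Pl k) = closure (Xk k) := by
  apply Subset.antisymm
  · rintro _ ⟨x, rfl⟩
    have h1 : x ∈ closure (range ((↑) : Xk k → Completion (Xk k))) := Completion.denseRange_coe x
    have h2 := image_closure_subset_closure_image (isometry_Phi (k := k)).continuous
      (mem_image_of_mem Phi h1)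
    refine closure_mono ?_ h2
    rintro _ ⟨_, ⟨y, rfl⟩, rfl⟩
    rw [Phi_coe]; exact y.2
  · apply closure_minimal
    · intro x hx
      exact ⟨((⟨x, hx⟩ : Xk k) : Completion (Xk k)), Phi_coe _⟩
    · exact (isometry_Phi (k := k)).isClosedEmbedding.isClosed_range

lemma mem_bdry_iff (x : Completion (Xk k)) : x ∈ bdry (Xk k) ↔ |(toP (Phi x)).2| = 1 := by
  have h1 : Phi x ∈ closure (Xk k) := by rw [← range_Phi]; exact mem_range_self x
  rw [closure_Xk] at h1
  have h1' : |(toP (Phi x)).2| ≤ 1 := h1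
  constructor
  · intro h
    refine le_antisymm h1' (not_lt.1 fun h2 => h ?_)
    refine ⟨⟨Phi x, h2⟩, (isometry_Phi (k := k)).injective ?_⟩
    rw [Phi_coe]
  · rintro h ⟨y, rfl⟩
    rw [Phi_coe] at h
    have h2 : |(toP y.1).2| < 1 := y.2
    linarith

/-- the boundary component at height `t = 1` or `t = -1` -/
def Comp (t : ℝ) : Set (Completion (Xk k)) := {x | (toP (Phi x)).2 = t}

lemma exists_pt {t : ℝ} (ht : |t| = 1) (s : ℝ) :
    ∃ x : Completion (Xk k), Phi x = ofP (s, t) := by
  have h1 : (ofP (s, t) : Pl k) ∈ closure (Xk k) := by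
    rw [closure_Xk]; exact ht.le
  rw [← range_Phi] at h1
  exact h1

lemma image_Comp {t : ℝ} (ht : |t| = 1) :
    Phi '' (Comp t : Set (Completion (Xk k))) = range fun s : ℝ => (ofP (s, t) : Pl k) := by
  ext y
  constructor
  · rintro ⟨x, hx, rfl⟩
    refine ⟨(toP (Phi x)).1, ?_⟩
    have h : (toP (Phi x)).2 = t := hx
    change ((toP (Phi x)).1, t) = toP (Phi x)
    rw [← h]
  · rintro ⟨s, rfl⟩
    obtain ⟨x, hx⟩ := exists_pt (k := k) ht s
    refine ⟨x, ?_, hx⟩
    change (toP (Phi x)).2 = t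
    rw [hx]; rfl

lemma preconnected_Comp {t : ℝ} (ht : |t| = 1) :
    IsPreconnected (Comp t : Set (Completion (Xk k))) := by
  rw [← (isometry_Phi (k := k)).isEmbedding.isInducing.isPreconnected_image, image_Comp ht]
  have hc : Continuous fun s : ℝ => (ofP (s, t) : Pl k) :=
    continuous_ofP.comp (by fun_prop)
  exact isPreconnected_range hc

lemma Comp_subset {t : ℝ} (ht : |t| = 1) : (Comp t : Set (Completion (Xk k))) ⊆ bdry (Xk k) := by
  intro x hx
  rw [mem_bdry_iff]
  have h : (toP (Phi x)).2 = t := hx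
  rw [h, ht]

lemma component {t : ℝ} (ht : |t| = 1) {x : Completion (Xk k)} (hx : x ∈ Comp (k := k) t) :
    connectedComponentIn (bdry (Xk k)) x = Comp t := by
  apply Subset.antisymm
  · intro y hy
    have hsub : connectedComponentIn (bdry (Xk k)) x ⊆ bdry (Xk k) :=
      connectedComponentIn_subset _ _
    have hpc : IsPreconnected (connectedComponentIn (bdry (Xk k)) x) :=
      isPreconnected_connectedComponentIn
    have hxx : x ∈ connectedComponentIn (bdry (Xk k)) x :=
      mem_connectedComponentIn (Comp_subset ht hx)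
    have hcont : Continuous fun z : Completion (Xk k) => (toP (Phi z)).2 :=
      continuous_snd.comp (uniformContinuous_toP.continuous.comp (isometry_Phi (k := k)).continuous)
    have him := hpc.image _ hcont.continuousOn
    have hord := him.ordConnected
    by_contra hne
    have h1 : |(toP (Phi y)).2| = 1 := (mem_bdry_iff y).1 (hsub hy)
    have h2 : (toP (Phi x)).2 = t := hx
    have h3 : (toP (Phi y)).2 ≠ t := hne
    have h4 : (0 : ℝ) ∈ (fun z : Completion (Xk k) => (toP (Phi z)).2) ''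
        connectedComponentIn (bdry (Xk k)) x := by
      rcases eq_or_eq_neg_of_abs_eq h1 with h5 | h5 <;> rcases eq_or_eq_neg_of_abs_eq ht with h6 | h6
      · exact absurd (h5.trans h6.symm) h3
      · refine hord.out ⟨x, hxx, h2⟩ ⟨y, hy, h5⟩ ⟨by rw [h6]; norm_num, by norm_num⟩
      · refine hord.out ⟨y, hy, h5⟩ ⟨x, hxx, h2⟩ ⟨by norm_num, by rw [h6]; norm_num⟩
      · exact absurd (h5.trans h6.symm) h3
    obtain ⟨z, hz, hz0⟩ := h4
    have h5 := (mem_bdry_iff z).1 (hsub hz)
    simp only at hz0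
    rw [hz0] at h5
    norm_num at h5
  · exact (preconnected_Comp ht).subset_connectedComponentIn hx (Comp_subset ht)

lemma edist_Phi (x y : Completion (Xk k)) : edist x y = ENNReal.ofReal
    (dL ((k : ℝ) + 1) (toP (Phi x)) (toP (Phi y))) := by
  rw [← (isometry_Phi (k := k)).edist_eq x y, edist_dist, dist_def]

lemma ediam_Comp {t : ℝ} (ht : |t| = 1) :
    ((k : ℝ≥0∞) + 1) ≤ Metric.ediam (Comp t : Set (Completion (Xk k))) := by
  obtain ⟨x, hx⟩ := exists_pt (k := k) ht 0
  obtain ⟨y, hy⟩ := exists_pt (k := k) ht (k + 1)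
  have hxC : x ∈ (Comp t : Set (Completion (Xk k))) := by
    change (toP (Phi x)).2 = t; rw [hx]; rfl
  have hyC : y ∈ (Comp t : Set (Completion (Xk k))) := by
    change (toP (Phi y)).2 = t; rw [hy]; rfl
  refine le_trans ?_ (Metric.edist_le_ediam_of_mem hyC hxC)
  rw [edist_Phi, hx, hy]
  have h0 : (0 : ℝ) ≤ k := Nat.cast_nonneg k
  have h1 : dL ((k : ℝ) + 1) (toP (ofP ((k : ℝ) + 1, t) : Pl k)) (toP (ofP (0, t) : Pl k)) =
      (k : ℝ) + 1 := by
    unfold dL
    apply min_eq_right
    refine le_trans ?_ (W_sub_le_d0 _ _)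
    refine le_trans ?_ (le_abs_self _)
    change (k : ℝ) + 1 ≤ W ((k : ℝ) + 1) - W 0
    unfold W
    rw [max_eq_left (by linarith), max_self, Real.exp_zero]
    have := Real.add_one_le_exp ((k : ℝ) + 1)
    linarith
  rw [h1, ENNReal.ofReal_add h0 zero_le_one, ENNReal.ofReal_natCast, ENNReal.ofReal_one]

lemma nontrivial_Comp {t : ℝ} (ht : |t| = 1) : (Comp t : Set (Completion (Xk k))).Nontrivial := by
  obtain ⟨x, hx⟩ := exists_pt (k := k) ht 0
  obtain ⟨y, hy⟩ := exists_pt (k := k) ht 1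
  refine ⟨x, ?_, y, ?_, ?_⟩
  · change (toP (Phi x)).2 = t; rw [hx]; rfl
  · change (toP (Phi y)).2 = t; rw [hy]; rfl
  · rintro rfl
    have h : ((0 : ℝ), t) = (1, t) := by
      have := hx.symm.trans hy
      exact this
    have := congrArg Prod.fst h
    norm_num at this

lemma inf_edist_le : (⨅ x ∈ (Comp 1 : Set (Completion (Xk k))),
    ⨅ y ∈ (Comp (-1) : Set (Completion (Xk k))), edist x y) ≤ 4 := by
  obtain ⟨x, hx⟩ := exists_pt (k := k) (t := 1) (by norm_num) 0
  obtain ⟨y, hy⟩ := exists_pt (k := k) (t := -1) (by norm_num) 0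
  have hxC : x ∈ (Comp 1 : Set (Completion (Xk k))) := by
    change (toP (Phi x)).2 = 1; rw [hx]; rfl
  have hyC : y ∈ (Comp (-1) : Set (Completion (Xk k))) := by
    change (toP (Phi y)).2 = -1; rw [hy]; rfl
  refine (iInf₂_le x hxC).trans ((iInf₂_le y hyC).trans ?_)
  rw [edist_Phi, hx, hy]
  have h1 : dL ((k : ℝ) + 1) (toP (ofP (0, 1) : Pl k)) (toP (ofP (0, -1) : Pl k)) ≤ 4 := by
    refine (min_le_left _ _).trans ?_
    change d0 (0, 1) (0, -1) ≤ 4
    unfold d0 W
    simp only [max_self, Real.exp_zero, sub_self, abs_zero, mul_one]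
    norm_num
  refine (ENNReal.ofReal_le_ofReal h1).trans ?_
  norm_num

end completion

/-- **The answer to Q1 is negative.**  For one constant `lam` (here `252`) there are bounded
`lam`-ALLC metric spaces, homeomorphic to a domain of `S²`, whose metric boundary consists of two
non-trivial components with arbitrarily small relative distance. -/
theorem result : ∃ lam : ℝ, 1 ≤ lam ∧ ∀ ε : ℝ≥0∞, 0 < ε →
    ∃ (X : Type) (_ : MetricSpace X), IsSphereDomain X ∧ IsALLC X lam ∧
      Bornology.IsBounded (univ : Set X) ∧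
      ∃ E F : Set (Completion X), IsNontrivialBdryComponent E ∧ IsNontrivialBdryComponent F ∧
        E ≠ F ∧ bdry X = E ∪ F ∧ relDist E F < ε := by
  refine ⟨252, by norm_num, fun ε hε => ?_⟩
  obtain ⟨k, hk⟩ := ENNReal.exists_nat_gt (ENNReal.div_ne_top (by norm_num : (4 : ℝ≥0∞) ≠ ∞) hε.ne')
  have h1 : |(1 : ℝ)| = 1 := abs_one
  have h2 : |(-1 : ℝ)| = 1 := by norm_num
  obtain ⟨x, hx⟩ := exists_pt (k := k) h1 0
  obtain ⟨y, hy⟩ := exists_pt (k := k) h2 0
  have hxC : x ∈ (Comp 1 : Set (Completion (Xk k))) := by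
    change (toP (Phi x)).2 = 1; rw [hx]; rfl
  have hyC : y ∈ (Comp (-1) : Set (Completion (Xk k))) := by
    change (toP (Phi y)).2 = -1; rw [hy]; rfl
  refine ⟨Xk k, inferInstance, sphereDomain k, allc k, ?_, Comp 1, Comp (-1),
    ⟨⟨x, Comp_subset h1 hxC, (component h1 hxC).symm⟩, nontrivial_Comp h1⟩,
    ⟨⟨y, Comp_subset h2 hyC, (component h2 hyC).symm⟩, nontrivial_Comp h2⟩, ?_, ?_, ?_⟩
  · rw [Metric.isBounded_iff]
    refine ⟨(k : ℝ) + 1, fun a _ b _ => ?_⟩
    exact min_le_right _ _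
  · intro h
    have h3 : x ∈ (Comp (-1) : Set (Completion (Xk k))) := h ▸ hxC
    have h4 : (toP (Phi x)).2 = -1 := h3
    have h5 : (toP (Phi x)).2 = 1 := hxC
    rw [h5] at h4
    norm_num at h4
  · apply Subset.antisymm
    · intro z hz
      rw [mem_bdry_iff] at hz
      rcases eq_or_eq_neg_of_abs_eq hz with h | h
      · exact Or.inl h
      · exact Or.inr h
    · exact union_subset (Comp_subset h1) (Comp_subset h2)
  · unfold relDist
    have h3 : ((k : ℝ≥0∞) + 1) ≤ min (Metric.ediam (Comp 1 : Set (Completion (Xk k))))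
        (Metric.ediam (Comp (-1) : Set (Completion (Xk k)))) := le_min (ediam_Comp h1) (ediam_Comp h2)
    refine (ENNReal.div_le_div inf_edist_le h3).trans_lt ?_
    have hk0 : (0 : ℝ≥0∞) < (k : ℝ≥0∞) + 1 := by positivity
    rw [ENNReal.div_lt_iff (Or.inl hk0.ne') (Or.inl (by finiteness))]
    rw [ENNReal.div_lt_iff (Or.inl hε.ne') (Or.inr (by norm_num))] at hk
    refine hk.trans_le ?_
    rw [mul_comm]
    exact mul_le_mul_right le_self_add _

end Pool.Agent.Results.MP_eb7e96_an.InfinitePocket
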